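import Pool.Agent.H239.WH.Part7

set_option autoImplicit false

/-!
# States whose Weyl–Heisenberg correlations have the order of those of a SIC, in every dimension

The definitions `omega`, `clock`, `shift`, `disp`, `braket`, `stabEntropy`, `maxEntropy` are in
`Pool.Agent.H239.WH.Defs`.
-/

namespace Pool.Agent.Results.MP_1c78a5_mp.EveryDimension

open Pool.Agent.H239.WH

/-- **Every dimension.** For every `d` there is a unit vector with
`|⟨ψ|D_{a,b}|ψ⟩|² ≤ 4000/(d+1)` for all `(a,b) ≠ (0,0)`; its stabilizer Rényi entropies of all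
orders `α ≥ 2` are within `log 4000` of the upper bound that only Weyl–Heisenberg covariant SIC
states can attain. -/
theorem result : ∀ (d : ℕ) [NeZero d], ∃ ψ : ZMod d → ℂ, braket ψ ψ = 1 ∧
    (∀ a b : ZMod d, (a, b) ≠ (0, 0) → ‖braket ψ (disp a b ψ)‖ ^ 2 ≤ 4000 / ((d : ℝ) + 1)) ∧
    ∀ α : ℕ, 2 ≤ α → maxEntropy d α - Real.log 4000 ≤ stabEntropy α ψ := by
  intro d _
  obtain ⟨ψ, h1, h2⟩ := every d
  refine ⟨ψ, ?_, fun a b hab => ?_, fun α hα => ?_⟩
  · rw [braket_self, h1, Complex.ofReal_one]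
  · rw [braket_disp]
    exact h2 a b hab
  · exact entropy_bound h1 (by norm_num) h2 α hα

end Pool.Agent.Results.MP_1c78a5_mp.EveryDimension
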