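import Pool.Agent.H239.WH.Part7

set_option autoImplicit false

/-!
# Asymptotic Weyl–Heisenberg covariant SIC fiducials

The definitions `omega`, `clock`, `shift`, `disp`, `braket`, `stabEntropy`, `maxEntropy` are in
`Pool.Agent.H239.WH.Defs`.
-/

namespace Pool.Agent.Results.MP_1c78a5_mp.NearFiducials

open Pool.Agent.H239.WH

/-- **Asymptotic fiducials.** If `d` is prime or `d + 1` is a prime power, then there is a unit
vector with `|(d+1) |⟨ψ|D_{a,b}|ψ⟩|² - 1| ≤ 4000 d^{-1/4}` for all `(a,b) ≠ (0,0)`; its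
stabilizer Rényi entropies of all orders `α ≥ 2` are within `log (1 + 4000 d^{-1/4})` of the upper
bound that only Weyl–Heisenberg covariant SIC states can attain. -/
theorem result : ∀ (d : ℕ) [NeZero d], d.Prime ∨ IsPrimePow (d + 1) →
    ∃ ψ : ZMod d → ℂ, braket ψ ψ = 1 ∧
    (∀ a b : ZMod d, (a, b) ≠ (0, 0) →
      |((d : ℝ) + 1) * ‖braket ψ (disp a b ψ)‖ ^ 2 - 1| ≤ 4000 / (d : ℝ) ^ (1 / 4 : ℝ)) ∧
    ∀ α : ℕ, 2 ≤ α →
      maxEntropy d α - Real.log (1 + 4000 / (d : ℝ) ^ (1 / 4 : ℝ)) ≤ stabEntropy α ψ := by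
  intro d _ hd
  obtain ⟨ψ, h1, h2⟩ := approx d hd
  have hd0 := d_pos (d := d)
  refine ⟨ψ, ?_, fun a b hab => ?_, fun α hα => ?_⟩
  · rw [braket_self, h1, Complex.ofReal_one]
  · rw [braket_disp]
    exact h2 a b hab
  · refine entropy_bound h1 ?_ (fun a b hab => ?_) α hα
    · have : (0 : ℝ) ≤ 4000 / (d : ℝ) ^ (1 / 4 : ℝ) := by positivity
      linarith
    · have h3 := h2 a b hab
      rw [abs_le] at h3
      rw [le_div_iff₀ (by positivity), mul_comm]
      linarith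

end Pool.Agent.Results.MP_1c78a5_mp.NearFiducials
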